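import Pool.Agent.Lib_MP_22d2c8_clq.Gadget

/-!
# The OR of many disjoint copies of `HasPoly` inside the clique function
-/

namespace Pool.Agent.Lib_MP_22d2c8_clq

open Finset

/-- The edge variables of the graphs with vertex set `Fin N`. -/
abbrev EdgeVar (N : ℕ) : Type := {p : Fin N × Fin N // p.1 < p.2}

/-- The graph given by the values of the edge variables. -/
def graphOf {N : ℕ} (y : EdgeVar N → Bool) : SimpleGraph (Fin N) where
  Adj i j := (∃ h : i < j, y ⟨(i, j), h⟩ = true) ∨ ∃ h : j < i, y ⟨(j, i), h⟩ = true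
  symm := ⟨fun _ _ h => h.symm⟩
  loopless := ⟨fun i h => by
    rcases h with ⟨h, _⟩ | ⟨h, _⟩ <;> exact lt_irrefl _ h⟩

/-- The vertices of the graph: selector vertices, the gadget, the arrays, additional vertices. -/
abbrev Vx (S K P w m q : ℕ) : Type :=
  Fin S ⊕ (Gad w m q ⊕ ((Fin K × (Fin m × Fin q)) ⊕ Fin P))

/-- The constant edges. -/
def ConstAdj {S K P w m q : ℕ} : Vx S K P w m q → Vx S K P w m q → Prop
  | .inl _, .inl _ => False
  | .inl _, .inr (.inl _) => True
  | .inl _, .inr (.inr (.inl _)) => False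
  | .inl _, .inr (.inr (.inr _)) => True
  | .inr (.inl _), .inl _ => True
  | .inr (.inl u), .inr (.inl u') => GAdj u u'
  | .inr (.inl u), .inr (.inr (.inl (_, i))) => u.2.1 = Fin.last w → u.1 = i.1 → u.2.2.1 = i.2
  | .inr (.inl _), .inr (.inr (.inr _)) => True
  | .inr (.inr (.inl _)), .inl _ => False
  | .inr (.inr (.inl (_, i))), .inr (.inl u) => u.2.1 = Fin.last w → u.1 = i.1 → u.2.2.1 = i.2
  | .inr (.inr (.inl (k, i))), .inr (.inr (.inl (k', i'))) => k = k' ∧ i.1 ≠ i'.1
  | .inr (.inr (.inl _)), .inr (.inr (.inr _)) => True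
  | .inr (.inr (.inr _)), .inl _ => True
  | .inr (.inr (.inr _)), .inr (.inl _) => True
  | .inr (.inr (.inr _)), .inr (.inr (.inl _)) => True
  | .inr (.inr (.inr p)), .inr (.inr (.inr p')) => p ≠ p'

theorem ConstAdj.symm {S K P w m q : ℕ} {u v : Vx S K P w m q} (h : ConstAdj u v) :
    ConstAdj v u := by
  rcases u with α | u | ⟨k, i⟩ | p <;> rcases v with α' | u' | ⟨k', i'⟩ | p' <;>
    simp only [ConstAdj] at h ⊢
  · exact h.symm
  · exact h
  · exact h
  · exact ⟨h.1.symm, fun e => h.2 e.symm⟩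
  · exact fun e => h e.symm

/-- The end of the variable edges in the array number `k`. -/
def fin {S K P w m q : ℕ} (k : Fin K) (i : Fin m × Fin q) : Vx S K P w m q :=
  .inr (.inr (.inl (k, i)))

/-- The variable edges. -/
def VarAdj {S K P w m q : ℕ} (x : Fin S × Fin K → Fin m × Fin q → Prop)
    (u v : Vx S K P w m q) : Prop :=
  ∃ b i, x b i ∧ u = .inl b.1 ∧ v = fin b.2 i

/-- All the edges. -/
def FullAdj {S K P w m q : ℕ} (x : Fin S × Fin K → Fin m × Fin q → Prop)
    (u v : Vx S K P w m q) : Prop :=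
  ConstAdj u v ∨ VarAdj x u v ∨ VarAdj x v u

theorem FullAdj.symm {S K P w m q : ℕ}
    {x : Fin S × Fin K → Fin m × Fin q → Prop} {u v : Vx S K P w m q}
    (h : FullAdj x u v) : FullAdj x v u := by
  rcases h with h | h | h
  · exact Or.inl h.symm
  · exact Or.inr (Or.inr h)
  · exact Or.inr (Or.inl h)

/-- The colours of the vertices: the graph is multipartite. -/
abbrev Col (P w m : ℕ) : Type := Unit ⊕ ((Fin m × Fin (w + 1)) ⊕ (Fin m ⊕ Fin P))

/-- The colour of a vertex. -/
def col {S K P w m q : ℕ} : Vx S K P w m q → Col P w m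
  | .inl _ => .inl ()
  | .inr (.inl u) => .inr (.inl (u.1, u.2.1))
  | .inr (.inr (.inl (_, i))) => .inr (.inr (.inl i.1))
  | .inr (.inr (.inr p)) => .inr (.inr (.inr p))

theorem col_ne {S K P w m q : ℕ}
    {x : Fin S × Fin K → Fin m × Fin q → Prop} {u v : Vx S K P w m q}
    (h : FullAdj x u v) : col u ≠ col v := by
  rcases h with h | ⟨b, i, -, rfl, rfl⟩ | ⟨b, i, -, rfl, rfl⟩
  · rcases u with α | u | ⟨k, i⟩ | p <;> rcases v with α' | u' | ⟨k', i'⟩ | p' <;>
      simp only [ConstAdj, col] at h ⊢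
    · simp
    · simp
    · simp
    · intro e
      exact h.2.2.1 (by simpa using e)
    · simp
    · simp
    · simp
    · intro e
      exact h.2 (by simpa using e)
    · simp
    · simp
    · simp
    · simp
    · intro e
      exact h (by simpa using e)
  · simp [col, fin]
  · simp [col, fin]

theorem adj_gad {S K P w m q : ℕ}
    {x : Fin S × Fin K → Fin m × Fin q → Prop} {u u' : Gad w m q}
    (h : FullAdj (S := S) (P := P) x (.inr (.inl u)) (.inr (.inl u'))) : GAdj u u' := by
  rcases h with h | ⟨b, i, -, h, -⟩ | ⟨b, i, -, h, -⟩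
  · exact h
  · exact absurd h (by simp)
  · exact absurd h (by simp)

theorem adj_live {S K P w m q : ℕ}
    {x : Fin S × Fin K → Fin m × Fin q → Prop} {k k' : Fin K} {i i' : Fin m × Fin q}
    (h : FullAdj (S := S) (P := P) (w := w) x (fin k i) (fin k' i')) : k = k' := by
  rcases h with h | ⟨b, i, -, h, -⟩ | ⟨b, i, -, h, -⟩
  · exact h.1
  · exact absurd h (by simp [fin])
  · exact absurd h (by simp [fin])

theorem adj_gad_live {S K P w m q : ℕ}
    {x : Fin S × Fin K → Fin m × Fin q → Prop} {k : Fin K} {i : Fin m × Fin q} {u : Gad w m q}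
    (h : FullAdj (S := S) (P := P) x (.inr (.inl u)) (fin k i)) :
    u.2.1 = Fin.last w → u.1 = i.1 → u.2.2.1 = i.2 := by
  rcases h with h | ⟨b, i', -, h, -⟩ | ⟨b, i', -, -, h⟩
  · exact h
  · exact absurd h (by simp)
  · exact absurd h (by simp [fin])

theorem adj_var {S K P w m q : ℕ}
    {x : Fin S × Fin K → Fin m × Fin q → Prop} {α : Fin S} {k : Fin K} {i : Fin m × Fin q}
    (h : FullAdj (P := P) (w := w) x (.inl α) (fin k i)) : x (α, k) i := by
  rcases h with h | ⟨b, i', h1, h2, h3⟩ | ⟨b, i', -, h2, -⟩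
  · exact absurd h (by simp [ConstAdj, fin])
  · have e1 : α = b.1 := by simpa using h2
    have e2 : k = b.2 ∧ i = i' := by simpa [fin] using h3
    rw [e2.2, e1, e2.1]
    exact h1
  · exact absurd h2 (by simp [fin])

/-- The clique of a polynomial. -/
theorem clique_of_poly {S K P w m q : ℕ} (hq : 0 < q)
    (x : Fin S × Fin K → Fin m × Fin q → Prop) (b : Fin S × Fin K)
    (hb : HasPoly w m q (x b)) :
    ∃ g : Col P w m → Vx S K P w m q, ∀ c c', c ≠ c' → FullAdj x (g c) (g c') := by
  obtain ⟨a, ha⟩ := hb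
  let val : Fin m → Fin q := fun j =>
    ⟨(∑ l, (a l : ℕ) * (j : ℕ) ^ (l : ℕ)) % q, Nat.mod_lt _ hq⟩
  have hvar : ∀ j : Fin m, FullAdj (P := P) (w := w) x (.inl b.1) (fin b.2 (j, val j)) := by
    intro j
    exact Or.inr (Or.inl ⟨b, (j, val j), ha j _ rfl, rfl, rfl⟩)
  have hgl : ∀ (j : Fin m) (t : Fin (w + 1)) (j' : Fin m), FullAdj (S := S) (P := P) x
      (.inr (.inl (pick hq a j t))) (fin b.2 (j', val j')) := by
    intro j t j'
    refine Or.inl ?_
    intro h1 h2
    have h1' : t = Fin.last w := h1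
    have h2' : j = j' := h2
    subst h1' h2'
    rw [pick_last]
  refine ⟨fun c => match c with
    | .inl _ => .inl b.1
    | .inr (.inl (j, t)) => .inr (.inl (pick hq a j t))
    | .inr (.inr (.inl j)) => fin b.2 (j, val j)
    | .inr (.inr (.inr p)) => .inr (.inr (.inr p)), ?_⟩
  rintro (c | ⟨j, t⟩ | j | p) (c' | ⟨j', t'⟩ | j' | p') hne
  · exact absurd rfl hne
  · exact Or.inl trivial
  · exact hvar j'
  · exact Or.inl trivial
  · exact Or.inl trivial
  · exact Or.inl (pick_adj hq a j j' t t' (fun e => hne (by rw [e])))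
  · exact hgl j t j'
  · exact Or.inl trivial
  · exact (hvar j).symm
  · exact (hgl j' t' j).symm
  · exact Or.inl ⟨rfl, fun e => hne (by
      have e' : j = j' := e
      rw [e'])⟩
  · exact Or.inl trivial
  · exact Or.inl trivial
  · exact Or.inl trivial
  · exact Or.inl trivial
  · exact Or.inl (fun e => hne (by rw [e]))

/-- The polynomial of a clique with all the colours. -/
theorem poly_of_clique {S K P w m q : ℕ} (hw : 1 ≤ w) (hm : 1 ≤ m) (hq : 0 < q)
    (x : Fin S × Fin K → Fin m × Fin q → Prop) (g : Col P w m → Vx S K P w m q)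
    (hcol : ∀ c, col (g c) = c) (hadj : ∀ c c', c ≠ c' → FullAdj x (g c) (g c')) :
    ∃ b, HasPoly w m q (x b) := by
  -- the selector vertex
  obtain ⟨α, hα⟩ : ∃ α, g (.inl ()) = .inl α := by
    have h := hcol (.inl ())
    rcases hg : g (.inl ()) with α | u | ⟨k, i⟩ | p
    · exact ⟨α, rfl⟩
    · rw [hg] at h
      exact absurd h (by simp [col])
    · rw [hg] at h
      exact absurd h (by simp [col])
    · rw [hg] at h
      exact absurd h (by simp [col])
  -- the gadget vertices
  have hgad : ∀ (j : Fin m) (t : Fin (w + 1)), ∃ u : Gad w m q,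
      g (.inr (.inl (j, t))) = .inr (.inl u) ∧ u.1 = j ∧ u.2.1 = t := by
    intro j t
    have h := hcol (.inr (.inl (j, t)))
    rcases hg : g (.inr (.inl (j, t))) with α | u | ⟨k, i⟩ | p
    · rw [hg] at h
      exact absurd h (by simp [col])
    · rw [hg] at h
      have h2 : u.1 = j ∧ u.2.1 = t := by simpa [col] using h
      exact ⟨u, rfl, h2.1, h2.2⟩
    · rw [hg] at h
      exact absurd h (by simp [col])
    · rw [hg] at h
      exact absurd h (by simp [col])
  choose Q hQ hQ1 hQ2 using hgad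
  -- the vertices of the array
  have hlive : ∀ j : Fin m, ∃ (k : Fin K) (c : Fin q),
      g (.inr (.inr (.inl j))) = fin k (j, c) := by
    intro j
    have h := hcol (.inr (.inr (.inl j)))
    rcases hg : g (.inr (.inr (.inl j))) with α | u | ⟨k, i⟩ | p
    · rw [hg] at h
      exact absurd h (by simp [col])
    · rw [hg] at h
      exact absurd h (by simp [col])
    · rw [hg] at h
      have h2 : i.1 = j := by simpa [col] using h
      refine ⟨k, i.2, ?_⟩
      rw [← h2]
      rfl
    · rw [hg] at h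
      exact absurd h (by simp [col])
  choose k c hk using hlive
  obtain ⟨a, ha⟩ := exists_poly hw hm hq Q hQ1 hQ2 (fun j t j' t' hne => by
    have h := hadj (.inr (.inl (j, t))) (.inr (.inl (j', t'))) (by simpa using hne)
    rw [hQ, hQ] at h
    exact adj_gad h)
  let j0 : Fin m := ⟨0, hm⟩
  have hkk : ∀ j, k j = k j0 := by
    intro j
    by_cases hj : j = j0
    · rw [hj]
    · have h := hadj (.inr (.inr (.inl j))) (.inr (.inr (.inl j0))) (by simpa using hj)
      rw [hk, hk] at h
      exact adj_live h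
  refine ⟨(α, k j0), a, ?_⟩
  intro j c' hc'
  have h1 := hadj (.inl ()) (.inr (.inr (.inl j))) (by simp)
  rw [hα, hk, hkk] at h1
  have h2 := adj_var h1
  have h3 := hadj (.inr (.inl (j, Fin.last w))) (.inr (.inr (.inl j))) (by simp)
  rw [hQ, hk] at h3
  have h4 := adj_gad_live h3 (hQ2 _ _) (hQ1 _ _)
  rw [ha j] at h4
  have h5 : c' = c j := (Fin.ext hc').trans h4
  rw [h5]
  exact h2

/-! ### The embedding into the graphs with vertex set `Fin N` -/

section Emb

variable {N S K P w m q : ℕ}

/-- The names of the vertices: the rest of the vertices comes after the selector vertices. -/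
noncomputable def emb
    (h : S + Fintype.card (Gad w m q ⊕ ((Fin K × (Fin m × Fin q)) ⊕ Fin P)) ≤ N) :
    Vx S K P w m q → Fin N :=
  fun u => Fin.castLE h (finSumFinEquiv (Sum.map id (Fintype.equivFin _) u))

theorem emb_injective
    (h : S + Fintype.card (Gad w m q ⊕ ((Fin K × (Fin m × Fin q)) ⊕ Fin P)) ≤ N) :
    Function.Injective (emb h) := by
  unfold emb
  intro u v huv
  have h1 := finSumFinEquiv.injective (Fin.castLE_injective h huv)
  exact Function.Injective.sumMap Function.injective_id (Fintype.equivFin _).injective h1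

theorem emb_lt
    (h : S + Fintype.card (Gad w m q ⊕ ((Fin K × (Fin m × Fin q)) ⊕ Fin P)) ≤ N)
    (α : Fin S) (u : Gad w m q ⊕ ((Fin K × (Fin m × Fin q)) ⊕ Fin P)) :
    emb h (.inl α) < emb h (.inr u) := by
  unfold emb
  rw [Fin.lt_def]
  simp only [Sum.map_inl, Sum.map_inr, id_eq, Fin.val_castLE, finSumFinEquiv_apply_left,
    finSumFinEquiv_apply_right, Fin.val_castAdd, Fin.val_natAdd]
  have := α.2
  omega

/-- The constant part of the input. -/
def z0 (h : S + Fintype.card (Gad w m q ⊕ ((Fin K × (Fin m × Fin q)) ⊕ Fin P)) ≤ N)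
    (e : EdgeVar N) : Prop :=
  ∃ u v : Vx S K P w m q, emb h u = e.1.1 ∧ emb h v = e.1.2 ∧ ConstAdj u v

/-- The variable of a place of a block. -/
noncomputable def phi
    (h : S + Fintype.card (Gad w m q ⊕ ((Fin K × (Fin m × Fin q)) ⊕ Fin P)) ≤ N)
    (b : Fin S × Fin K) (i : Fin m × Fin q) : EdgeVar N :=
  ⟨(emb h (.inl b.1), emb h (fin b.2 i)), emb_lt h b.1 _⟩

theorem phi_inj
    (h : S + Fintype.card (Gad w m q ⊕ ((Fin K × (Fin m × Fin q)) ⊕ Fin P)) ≤ N)
    (b b' : Fin S × Fin K) (i i' : Fin m × Fin q) (he : phi h b i = phi h b' i') :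
    b = b' ∧ i = i' := by
  have h1 := congrArg (fun e : EdgeVar N => e.1) he
  have h2 := congrArg Prod.fst h1
  have h3 := congrArg Prod.snd h1
  have h4 := emb_injective h h2
  have h5 := emb_injective h h3
  have h6 : b.2 = b'.2 ∧ i = i' := by simpa [fin] using h5
  exact ⟨Prod.ext (by simpa using h4) h6.1, h6.2⟩

theorem z0_phi (h : S + Fintype.card (Gad w m q ⊕ ((Fin K × (Fin m × Fin q)) ⊕ Fin P)) ≤ N)
    (b : Fin S × Fin K) (i : Fin m × Fin q) : ¬ z0 h (phi h b i) := by
  rintro ⟨u, v, hu, hv, hc⟩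
  have h1 := emb_injective h hu
  have h2 := emb_injective h hv
  subst h1 h2
  exact hc

open Classical in
/-- The edges between the named vertices. -/
theorem adj_emb (h : S + Fintype.card (Gad w m q ⊕ ((Fin K × (Fin m × Fin q)) ⊕ Fin P)) ≤ N)
    (x : Fin S × Fin K → Fin m × Fin q → Prop) (i j : Fin N) :
    (graphOf (fun e => decide (fillIn (z0 h) (phi h) x e))).Adj i j ↔
      ∃ u v : Vx S K P w m q, emb h u = i ∧ emb h v = j ∧ FullAdj x u v := by
  have key : ∀ (i j : Fin N) (hij : i < j), fillIn (z0 h) (phi h) x ⟨(i, j), hij⟩ ↔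
      ∃ u v : Vx S K P w m q, emb h u = i ∧ emb h v = j ∧ FullAdj x u v := by
    intro i j hij
    unfold fillIn
    constructor
    · rintro (⟨u, v, hu, hv, hc⟩ | ⟨b, k, hx, he⟩)
      · exact ⟨u, v, hu, hv, Or.inl hc⟩
      · have h1 := congrArg (fun e : EdgeVar N => e.1) he
        exact ⟨.inl b.1, fin b.2 k, congrArg Prod.fst h1, congrArg Prod.snd h1,
          Or.inr (Or.inl ⟨b, k, hx, rfl, rfl⟩)⟩
    · rintro ⟨u, v, hu, hv, hc | ⟨b, k, hx, rfl, rfl⟩ | ⟨b, k, hx, rfl, rfl⟩⟩
      · exact Or.inl ⟨u, v, hu, hv, hc⟩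
      · refine Or.inr ⟨b, k, hx, ?_⟩
        apply Subtype.ext
        exact Prod.ext hu hv
      · exfalso
        have h2 := emb_lt h b.1 (.inr (.inl (b.2, k)))
        have h3 : emb h (fin b.2 k) < emb h (.inl b.1) := by
          rw [hu, hv]
          exact hij
        exact lt_asymm h2 h3
  show ((∃ hij : i < j, decide _ = true) ∨ ∃ hji : j < i, decide _ = true) ↔ _
  simp only [decide_eq_true_eq]
  constructor
  · rintro (⟨hij, hf⟩ | ⟨hji, hf⟩)
    · exact (key i j hij).mp hf
    · obtain ⟨u, v, hu, hv, hf⟩ := (key j i hji).mp hf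
      exact ⟨v, u, hv, hu, hf.symm⟩
  · rintro ⟨u, v, hu, hv, hf⟩
    have hne : i ≠ j := by
      rintro rfl
      have := emb_injective h (hu.trans hv.symm)
      rw [this] at hf
      exact col_ne hf rfl
    rcases lt_or_gt_of_ne hne with hij | hji
    · exact Or.inl ⟨hij, (key i j hij).mpr ⟨u, v, hu, hv, hf⟩⟩
    · exact Or.inr ⟨hji, (key j i hji).mpr ⟨v, u, hv, hu, hf.symm⟩⟩

theorem card_col : Fintype.card (Col P w m) = 1 + (m * (w + 1) + (m + P)) := by
  simp [Col]

open Classical in
/-- **The clique function contains the OR of `S * K` copies.** -/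
theorem clique_iff (hw : 1 ≤ w) (hm : 1 ≤ m) (hq : 0 < q)
    (h : S + Fintype.card (Gad w m q ⊕ ((Fin K × (Fin m × Fin q)) ⊕ Fin P)) ≤ N)
    (x : Fin S × Fin K → Fin m × Fin q → Prop) :
    (∃ X : Finset (Fin N),
      (graphOf (fun e => decide (fillIn (z0 h) (phi h) x e))).IsClique (X : Set (Fin N)) ∧
        1 + (m * (w + 1) + (m + P)) ≤ X.card) ↔ ∃ b, HasPoly w m q (x b) := by
  constructor
  · rintro ⟨X, hX, hcard⟩
    -- every vertex of the clique has a name
    have hname : ∀ i ∈ X, ∃ u : Vx S K P w m q, emb h u = i := by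
      intro i hi
      obtain ⟨j, hj, hne⟩ := Finset.exists_mem_ne (by omega : 1 < X.card) i
      obtain ⟨u, v, hu, -, -⟩ := (adj_emb h x i j).mp (hX hi hj (fun e => hne e.symm))
      exact ⟨u, hu⟩
    have hne0 : Nonempty (Vx S K P w m q) := by
      obtain ⟨i, hi⟩ := Finset.card_pos.mp (by omega : 0 < X.card)
      obtain ⟨u, -⟩ := hname i hi
      exact ⟨u⟩
    choose! nm hnm using hname
    have hadj : ∀ i ∈ X, ∀ j ∈ X, i ≠ j → FullAdj x (nm i) (nm j) := by
      intro i hi j hj hne
      obtain ⟨u, v, hu, hv, hf⟩ := (adj_emb h x i j).mp (hX hi hj hne)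
      have e1 : nm i = u := emb_injective h ((hnm i hi).trans hu.symm)
      have e2 : nm j = v := emb_injective h ((hnm j hj).trans hv.symm)
      rw [e1, e2]
      exact hf
    have hinj : Set.InjOn (fun i => col (nm i)) (X : Set (Fin N)) := by
      intro i hi j hj hij
      by_contra hne
      exact col_ne (hadj i hi j hj hne) hij
    have hsurj : X.image (fun i => col (nm i)) = Finset.univ := by
      apply Finset.eq_univ_of_card
      rw [Finset.card_image_of_injOn hinj]
      have h1 : X.card ≤ Fintype.card (Col P w m) := by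
        rw [← Finset.card_image_of_injOn hinj]
        exact Finset.card_le_univ _
      rw [card_col] at h1 ⊢
      omega
    have hex : ∀ c : Col P w m, ∃ i ∈ X, col (nm i) = c := by
      intro c
      have := Finset.mem_univ c
      rw [← hsurj] at this
      simpa using this
    choose f hf1 hf2 using hex
    refine poly_of_clique hw hm hq x (fun c => nm (f c)) hf2 ?_
    intro c c' hne
    refine hadj _ (hf1 c) _ (hf1 c') ?_
    intro e
    apply hne
    rw [← hf2 c, ← hf2 c', e]
  · rintro ⟨b, hb⟩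
    obtain ⟨g, hg⟩ := clique_of_poly (P := P) hq x b hb
    refine ⟨Finset.univ.image (fun c => emb h (g c)), ?_, ?_⟩
    · intro i hi j hj hne
      simp only [Finset.coe_image, Finset.coe_univ, Set.image_univ, Set.mem_range] at hi hj
      obtain ⟨c, rfl⟩ := hi
      obtain ⟨c', rfl⟩ := hj
      have hcc : c ≠ c' := by
        rintro rfl
        exact hne rfl
      exact (adj_emb h x _ _).mpr ⟨g c, g c', rfl, rfl, hg c c' hcc⟩
    · rw [Finset.card_image_of_injective, Finset.card_univ, card_col]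
      intro c c' hcc
      by_contra hne
      have := emb_injective h hcc
      have h2 := hg c c' hne
      rw [this] at h2
      exact col_ne h2 rfl

end Emb

end Pool.Agent.Lib_MP_22d2c8_clq
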