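import Pool.Agent.Lib_MP_22d2c8_clq.Net

/-!
# The general lower bound

A property which contains the OR of more than `T` disjoint copies of `HasPoly` (with the right
parameters) has no small circuit with at most `T` entry changes.
-/

namespace Pool.Agent.Lib_MP_22d2c8_clq

open Finset
open Pool.Agent.Lib_MP_22d2c8_gen (Op Circuit Disj cfgB)
open Pool.Agent.Lib_MP_22d2c8_rsf

/-- The size of the parameters. -/
theorem param_bounds {v m q : ℕ} (hv : 1 ≤ v) (hwm : 2 * (v + 1) ≤ m) (hmq : m ≤ q)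
    (hmq' : m * q ≤ 2 ^ 25 * v ^ 2 * (Nat.log 2 v + 1) ^ 3) :
    m * q ≤ 2 ^ 25 * (v ^ 2 * (Nat.log 2 v + 1) ^ 3) ∧
      (m * (2 * (v + 1) + 1)) ^ 2 ≤ 2 ^ 30 * (v ^ 4 * (Nat.log 2 v + 1) ^ 6) ∧
      m * ((2 * (v + 1) + 1) * (q * q)) ≤ 2 ^ 52 * (v ^ 4 * (Nat.log 2 v + 1) ^ 6) := by
  set L := Nat.log 2 v + 1 with hL
  have hL1 : 1 ≤ L := by omega
  have hqv : q * v ≤ 2 ^ 24 * (v ^ 2 * L ^ 3) := by
    have h1 : q * (2 * (v + 1)) ≤ q * m := Nat.mul_le_mul_left _ hwm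
    have h2 : q * m = m * q := Nat.mul_comm _ _
    have h3 : q * (2 * (v + 1)) = 2 * (q * v) + 2 * q := by ring
    have h4 : 2 ^ 25 * v ^ 2 * L ^ 3 = 2 * (2 ^ 24 * (v ^ 2 * L ^ 3)) := by ring
    omega
  have hL36 : L ^ 3 ≤ L ^ 6 := Nat.pow_le_pow_right hL1 (by norm_num)
  refine ⟨by rw [← mul_assoc]; exact hmq', ?_, ?_⟩
  · have h1 : m * m ≤ 2 ^ 25 * v ^ 2 * L ^ 3 := (Nat.mul_le_mul_left _ hmq).trans hmq'
    have h2 : 2 * (v + 1) + 1 ≤ 5 * v := by omega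
    calc (m * (2 * (v + 1) + 1)) ^ 2 ≤ (m * (5 * v)) ^ 2 := by gcongr
      _ = (m * m) * (25 * v ^ 2) := by ring
      _ ≤ (2 ^ 25 * v ^ 2 * L ^ 3) * (25 * v ^ 2) := Nat.mul_le_mul_right _ h1
      _ = 25 * 2 ^ 25 * v ^ 4 * L ^ 3 := by ring
      _ ≤ 25 * 2 ^ 25 * v ^ 4 * L ^ 6 := Nat.mul_le_mul_left _ hL36
      _ ≤ 2 ^ 30 * v ^ 4 * L ^ 6 := by
        apply Nat.mul_le_mul_right
        apply Nat.mul_le_mul_right
        norm_num
      _ = 2 ^ 30 * (v ^ 4 * L ^ 6) := by ring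
  · have h2 : 2 * (v + 1) + 1 ≤ 5 * v := by omega
    calc m * ((2 * (v + 1) + 1) * (q * q)) ≤ m * ((5 * v) * (q * q)) := by gcongr
      _ = 5 * ((m * q) * (q * v)) := by ring
      _ ≤ 5 * ((2 ^ 25 * v ^ 2 * L ^ 3) * (2 ^ 24 * (v ^ 2 * L ^ 3))) := by gcongr
      _ = 5 * 2 ^ 49 * (v ^ 4 * L ^ 6) := by ring
      _ ≤ 2 ^ 52 * (v ^ 4 * L ^ 6) := by
        apply Nat.mul_le_mul_right
        norm_num

open Classical in
theorem exists_hard (v : ℕ) (hv : 1 ≤ v) :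
    ∃ m q : ℕ, 1 ≤ m ∧ 0 < q ∧ m * q ≤ 2 ^ 25 * (v ^ 2 * (Nat.log 2 v + 1) ^ 3) ∧
      (m * (2 * (v + 1) + 1)) ^ 2 ≤ 2 ^ 30 * (v ^ 4 * (Nat.log 2 v + 1) ^ 6) ∧
      m * ((2 * (v + 1) + 1) * (q * q)) ≤ 2 ^ 52 * (v ^ 4 * (Nat.log 2 v + 1) ^ 6) ∧
      ∀ (V I : Type) [Fintype V] [Fintype I] (s T : ℕ) (C : Net V s) (P : (V → Bool) → Prop),
        C.Decides P → C.EntryChangesLE T → T < Fintype.card I →
        ∀ (z0 : V → Prop) (φ : I → Fin m × Fin q → V),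
          (∀ b b' i i', φ b i = φ b' i' → b = b' ∧ i = i') → (∀ b i, ¬ z0 (φ b i)) →
          (∀ x : I → Fin m × Fin q → Prop,
            P (fun j => decide (fillIn z0 φ x j)) ↔ ∃ b, HasPoly (2 * (v + 1)) m q (x b)) →
          2 ^ v < m * q + s + 4 := by
  obtain ⟨k, M, m, q, hM, hR, hq, hMq, hwm, hmq, hk, hm, hmq'⟩ := exists_params v hv
  have hq1 : 1 ≤ q := hq.one_lt.le
  have hm1 : 1 ≤ m := by omega
  obtain ⟨hb1, hb2, hb3⟩ := param_bounds hv hwm hmq hmq'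
  refine ⟨m, q, hm1, hq1, hb1, hb2, hb3, ?_⟩
  intro V I _ _ s T C P hC hT hI z0 φ hφ hz hf
  by_contra hcon
  push Not at hcon
  obtain ⟨C', hC'm, hC'⟩ := transfer C P hC hT hI z0 φ hφ hz hm1 hq1 hf
  have hb := mono_circuit_bound (v := v + 1) (by omega) hM hR hq hMq hmq hk hm C' hC'm hC'
  have h5 : (m * q + (s + 3) + 1) ^ 2 ≤ (2 ^ v) ^ 2 := by
    apply Nat.pow_le_pow_left
    omega
  have h6 : 4 * (2 ^ v) ^ 2 = 2 ^ (2 * v + 2) := by
    rw [← pow_mul, pow_add]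
    ring
  have h7 : (8 : ℕ) ^ (v + 1) = 2 ^ (3 * (v + 1)) := by
    rw [pow_mul]
    norm_num
  have h8 : 2 ^ (2 * v + 2) ≤ 2 ^ (3 * (v + 1)) :=
    Nat.pow_le_pow_right (by norm_num) (by omega)
  omega

open Classical in
/-- The average-case form. -/
theorem exists_hard_avg (v : ℕ) (hv : 1 ≤ v) :
    ∃ m q : ℕ, 1 ≤ m ∧ 0 < q ∧ m * q ≤ 2 ^ 25 * (v ^ 2 * (Nat.log 2 v + 1) ^ 3) ∧
      (m * (2 * (v + 1) + 1)) ^ 2 ≤ 2 ^ 30 * (v ^ 4 * (Nat.log 2 v + 1) ^ 6) ∧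
      m * ((2 * (v + 1) + 1) * (q * q)) ≤ 2 ^ 52 * (v ^ 4 * (Nat.log 2 v + 1) ^ 6) ∧
      ∀ (V I : Type) [Fintype V] [Fintype I] (P : (V → Bool) → Prop)
        (z0 : V → Prop) (φ : I → Fin m × Fin q → V), 0 < Fintype.card I →
          Fintype.card I ≤ 2 ^ v →
          (∀ b b' i i', φ b i = φ b' i' → b = b' ∧ i = i') → (∀ b i, ¬ z0 (φ b i)) →
          (∀ x : I → Fin m × Fin q → Prop,
            P (fun j => decide (fillIn z0 φ x j)) ↔ ∃ b, HasPoly (2 * (v + 1)) m q (x b)) →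
          ∃ (Ω : Type) (_ : Fintype Ω) (_ : Nonempty Ω) (Z : Ω → V → Bool),
            ∀ (s T : ℕ) (C : Net V s), m * q + s + 4 ≤ 2 ^ v → C.EntryChangesLE T →
              prob (fun ω => C.Accepts (Z ω) ↔ P (Z ω)) ≤
                1 / 2 + (T : ℝ) / (2 * Fintype.card I) + (1 / 2 : ℝ) ^ v := by
  obtain ⟨k, M, m, q, hk1, hM, hMk, hq, hMq, hwm, hmq, hk, hm, hmqle⟩ := exists_paramsD v hv
  have hq1 : 1 ≤ q := hq.one_lt.le
  have hm1 : 1 ≤ m := by omega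
  obtain ⟨hb1, hb2, hb3⟩ := param_bounds hv hwm hmq hmqle
  have hMne : NeZero M := ⟨by omega⟩
  have hqne : NeZero q := ⟨hq.ne_zero⟩
  refine ⟨m, q, hm1, hq1, hb1, hb2, hb3, ?_⟩
  intro V I _ _ P z0 φ hBpos hBv hφ hz hf
  set e := Fintype.equivFin V with he
  set eI := Fintype.equivFin I with heI
  set B := Fintype.card I with hB
  have : Nonempty (Fin B) := ⟨⟨0, hBpos⟩⟩
  let ΩU := Fin (k * Nat.size (2 * (v + 1))) → (Fin m × Fin q) → Fin M
  let ΩY := Fin (2 * (v + 1)) → Fin q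
  have : Nonempty ΩU := ⟨fun _ _ => ⟨0, hM⟩⟩
  have : Nonempty ΩY := ⟨fun _ => ⟨0, hq1⟩⟩
  let U : ΩU → Fin (m * q) → Bool :=
    fun ω i => decide ((finProdFinEquiv (m := m) (n := q)).symm i ∈ noise ω)
  let Y : ΩY → Fin (m * q) → Bool :=
    fun a i => decide ((finProdFinEquiv (m := m) (n := q)).symm i ∈ graph (2 * (v + 1)) m q a)
  have hblockY : ∀ a, block (2 * (v + 1)) m q (Y a) = true := by
    intro a
    unfold block
    rw [decide_eq_true_iff]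
    refine ⟨a, fun p hp => ?_⟩
    show decide _ = true
    rw [decide_eq_true_iff, Equiv.symm_apply_apply]
    exact hp
  have hblockU : prob (fun ω : ΩU => block (2 * (v + 1)) m q (U ω) = true) ≤
      (1 / 4 : ℝ) ^ (v + 1) := by
    have h1 : prob (fun ω : ΩU => block (2 * (v + 1)) m q (U ω) = true) ≤
        prob (fun ω : ΩU => ∃ a ∈ (Finset.univ : Finset ΩY),
          graph (2 * (v + 1)) m q a ⊆ noise ω) := by
      refine prob_mono fun ω hω => ?_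
      unfold block at hω
      rw [decide_eq_true_iff] at hω
      obtain ⟨a, ha⟩ := hω
      refine ⟨a, Finset.mem_univ _, fun p hp => ?_⟩
      have h2 := ha p hp
      have h3 : decide ((finProdFinEquiv (m := m) (n := q)).symm (finProdFinEquiv p) ∈ noise ω)
          = true := h2
      rw [decide_eq_true_iff, Equiv.symm_apply_apply] at h3
      exact h3
    refine h1.trans ((prob_exists_le _ _).trans ?_)
    have hMpos : (0 : ℝ) < M := by exact_mod_cast hM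
    have hRM : ((k * Nat.size (2 * (v + 1)) : ℕ) : ℝ) / M ≤ 1 / 2 := by
      rw [div_le_div_iff₀ hMpos (by norm_num)]
      have : ((2 * (k * Nat.size (2 * (v + 1))) : ℕ) : ℝ) ≤ M := by
        rw [← hMk]
      push_cast at this ⊢
      linarith
    have h2 : ∀ a : ΩY, prob (fun ω : ΩU => graph (2 * (v + 1)) m q a ⊆ noise ω) ≤
        (1 / 2 : ℝ) ^ m := by
      intro a
      refine (prob_subset_noise hM _).trans ?_
      rw [graph_card hq1]
      exact pow_le_pow_left₀ (by positivity) hRM m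
    refine (Finset.sum_le_sum fun a _ => h2 a).trans ?_
    rw [Finset.sum_const, Finset.card_univ, nsmul_eq_mul]
    have h3 : (Fintype.card ΩY : ℝ) = (q : ℝ) ^ (2 * (v + 1)) := by simp [ΩY]
    rw [h3]
    have h4 : (4 : ℝ) ^ (v + 1) * (q : ℝ) ^ (2 * (v + 1)) ≤ 2 ^ m := by exact_mod_cast hm
    have h5 : (2 : ℝ) ^ m * (1 / 2 : ℝ) ^ m = 1 := by
      rw [← mul_pow]
      norm_num
    have h6 : (0 : ℝ) < (1 / 2 : ℝ) ^ m := by positivity
    have h7 : (4 : ℝ) ^ (v + 1) * (1 / 4 : ℝ) ^ (v + 1) = 1 := by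
      rw [← mul_pow]
      norm_num
    have h9 : (0 : ℝ) < (1 / 4 : ℝ) ^ (v + 1) := by positivity
    calc (q : ℝ) ^ (2 * (v + 1)) * (1 / 2 : ℝ) ^ m
        = ((4 : ℝ) ^ (v + 1) * (q : ℝ) ^ (2 * (v + 1))) *
          ((1 / 4 : ℝ) ^ (v + 1) * (1 / 2 : ℝ) ^ m) := by
          rw [show ((4 : ℝ) ^ (v + 1) * (q : ℝ) ^ (2 * (v + 1))) *
            ((1 / 4 : ℝ) ^ (v + 1) * (1 / 2 : ℝ) ^ m) =
            ((4 : ℝ) ^ (v + 1) * (1 / 4 : ℝ) ^ (v + 1)) *
              ((q : ℝ) ^ (2 * (v + 1)) * (1 / 2 : ℝ) ^ m) by ring, h7, one_mul]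
      _ ≤ 2 ^ m * ((1 / 4 : ℝ) ^ (v + 1) * (1 / 2 : ℝ) ^ m) :=
          mul_le_mul_of_nonneg_right h4 (by positivity)
      _ = (1 / 4 : ℝ) ^ (v + 1) := by
          rw [show (2 : ℝ) ^ m * ((1 / 4 : ℝ) ^ (v + 1) * (1 / 2 : ℝ) ^ m) =
            (2 ^ m * (1 / 2 : ℝ) ^ m) * (1 / 4 : ℝ) ^ (v + 1) by ring, h5, one_mul]
  let X1 : Fin B × ((Fin B → ΩU) × ΩY) → Fin (Fintype.card V) → Bool := fun p =>
    cfgB (bgr e z0) (plc e eI φ) (Function.update (fill U p.1 p.2.1) p.1 (Y p.2.2))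
  let X0 : Fin B × ((Fin B → ΩU) × ΩY) → Fin (Fintype.card V) → Bool := fun p =>
    cfgB (bgr e z0) (plc e eI φ) (fill U ((p.1 : ℕ) + 1) p.2.1)
  have hX1 : ∀ p, P (fun j => X1 p (e j)) := by
    rintro ⟨i, ω, a⟩
    refine (prop_cfg e eI P z0 φ hf _).mpr ⟨i, ?_⟩
    simp only [Function.update_self]
    exact hblockY a
  have hX0 : prob (fun p => P (fun j => X0 p (e j))) ≤ (1 / 2 : ℝ) ^ v := by
    have h1 : prob (fun p : Fin B × ((Fin B → ΩU) × ΩY) => P (fun j => X0 p (e j))) ≤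
        prob (fun p : Fin B × ((Fin B → ΩU) × ΩY) =>
          ∃ b ∈ (Finset.univ : Finset (Fin B)),
            block (2 * (v + 1)) m q (U (p.2.1 b)) = true) := by
      refine prob_mono fun p hp => ?_
      obtain ⟨b, hb⟩ := (prop_cfg e eI P z0 φ hf _).mp hp
      refine ⟨b, Finset.mem_univ _, ?_⟩
      unfold fill at hb
      by_cases hlt : (b : ℕ) < (p.1 : ℕ) + 1
      · rw [if_pos hlt] at hb
        exact hb
      · rw [if_neg hlt, block_zero hm1 hq1] at hb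
        exact absurd hb (by simp)
    refine h1.trans ((prob_exists_le _ _).trans ?_)
    have h2 : ∀ b : Fin B, prob (fun p : Fin B × ((Fin B → ΩU) × ΩY) =>
        block (2 * (v + 1)) m q (U (p.2.1 b)) = true) ≤ (1 / 4 : ℝ) ^ (v + 1) := by
      intro b
      rw [prob_mid (fun ω : Fin B → ΩU => block (2 * (v + 1)) m q (U (ω b)) = true),
        prob_coord b (fun u : ΩU => block (2 * (v + 1)) m q (U u) = true)]
      exact hblockU
    refine (Finset.sum_le_sum fun b _ => h2 b).trans ?_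
    rw [Finset.sum_const, Finset.card_univ, Fintype.card_fin, nsmul_eq_mul]
    have h3 : (B : ℝ) ≤ 2 ^ v := by exact_mod_cast hBv
    have h4 : (2 : ℝ) ^ v * (1 / 4 : ℝ) ^ (v + 1) = (1 / 2 : ℝ) ^ v * (1 / 4) := by
      rw [pow_succ, ← mul_assoc, ← mul_pow]
      norm_num
    calc (B : ℝ) * (1 / 4 : ℝ) ^ (v + 1) ≤ 2 ^ v * (1 / 4 : ℝ) ^ (v + 1) :=
          mul_le_mul_of_nonneg_right h3 (by positivity)
      _ = (1 / 2 : ℝ) ^ v * (1 / 4) := h4
      _ ≤ (1 / 2 : ℝ) ^ v := by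
          have : (0 : ℝ) < (1 / 2 : ℝ) ^ v := by positivity
          linarith
  refine ⟨Bool × (Fin B × ((Fin B → ΩU) × ΩY)), inferInstance, inferInstance,
    fun p j => if p.1 = true then X1 p.2 (e j) else X0 p.2 (e j), ?_⟩
  intro s T C hs hT
  have hmono : ∀ C' : Circuit (m * q) (s + 3), C'.IsMonotone →
      prob (fun a => Pool.Agent.Lib_MP_22d2c8_rsf.Accepts C' (Y a)) ≤
        prob (fun u => Pool.Agent.Lib_MP_22d2c8_rsf.Accepts C' (U u)) + (1 / 2 : ℝ) ^ v := by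
    intro C' hC'
    have h1 := dist_circuit (v := v + 1) (by omega) hM hk1 (by omega) hq hMq hmq hk C' hC'
    refine h1.trans ?_
    have h2 : (m * q + (s + 3) + 1) ^ 2 ≤ (2 ^ v) ^ 2 := by
      apply Nat.pow_le_pow_left
      omega
    have h3 : (((m * q + (s + 3) + 1) ^ 2 : ℕ) : ℝ) ≤ (2 ^ v) ^ 2 := by exact_mod_cast h2
    have h4 : ((2 : ℝ) ^ v) ^ 2 * (2 * (1 / 8 : ℝ) ^ (v + 1)) = (1 / 2 : ℝ) ^ v * (1 / 4) := by
      rw [← pow_mul, mul_comm v 2, pow_mul, pow_succ (1 / 8 : ℝ) v]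
      have : ((2 : ℝ) ^ 2) ^ v * (2 * ((1 / 8) ^ v * (1 / 8))) =
          (((2 : ℝ) ^ 2) ^ v * (1 / 8) ^ v) * (1 / 4) := by ring
      rw [this, ← mul_pow]
      norm_num
    have h5 : (0 : ℝ) < (1 / 2 : ℝ) ^ v := by positivity
    have h6 := mul_le_mul_of_nonneg_right h3
      (show (0 : ℝ) ≤ 2 * (1 / 8 : ℝ) ^ (v + 1) by positivity)
    rw [h4] at h6
    linarith
  have h1 := avg_transfer (C.toCircuit e) T (Net.changes_toCircuit C e T hT) (bgr e z0)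
    (plc e eI φ) (plc_disj e eI φ hφ) (bgr_plc e eI z0 φ hz) U Y ((1 / 2 : ℝ) ^ v) hmono hBpos
  simp only [Net.accepts_toCircuit] at h1
  have hpos : prob (fun p : Fin B × ((Fin B → ΩU) × ΩY) => C.Accepts (fun j => X1 p (e j)) ↔
      P (fun j => X1 p (e j))) = prob (fun p => C.Accepts (fun j => X1 p (e j))) :=
    prob_congr fun p => by simp [hX1 p]
  have hneg : prob (fun p : Fin B × ((Fin B → ΩU) × ΩY) => C.Accepts (fun j => X0 p (e j)) ↔
      P (fun j => X0 p (e j))) ≤ prob (fun p => ¬ C.Accepts (fun j => X0 p (e j))) +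
        prob (fun p => P (fun j => X0 p (e j))) := by
    refine le_trans (prob_mono ?_) (prob_or_le _ _)
    intro p hp
    by_cases hP : P (fun j => X0 p (e j))
    · exact Or.inr hP
    · exact Or.inl fun ha => hP (hp.mp ha)
  rw [prob_not] at hneg
  rw [prob_bool]
  simp only [if_true, Bool.false_eq_true, if_false]
  rw [hpos]
  have h7 : (T : ℝ) / (2 * (B : ℝ)) = (T : ℝ) / B / 2 := by
    rw [div_div, mul_comm]
  rw [h7]
  linarith

end Pool.Agent.Lib_MP_22d2c8_clq
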