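import Pool.Agent.Lib_MP_22d2c8_clq.Clique
import Pool.Agent.Lib_MP_22d2c8_clq.Core

/-!
# The lower bound for the clique function
-/

namespace Pool.Agent.Lib_MP_22d2c8_clq

open Finset
open Pool.Agent.Lib_MP_22d2c8_rsf (prob)

/-- The graph has a clique with `κ` vertices. -/
def HasClique (N κ : ℕ) (y : EdgeVar N → Bool) : Prop :=
  ∃ X : Finset (Fin N), (graphOf y).IsClique (X : Set (Fin N)) ∧ X.card = κ

theorem hasClique_iff (N κ : ℕ) (y : EdgeVar N → Bool) :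
    HasClique N κ y ↔ ∃ X : Finset (Fin N), (graphOf y).IsClique (X : Set (Fin N)) ∧
      κ ≤ X.card := by
  constructor
  · rintro ⟨X, hX, h⟩
    exact ⟨X, hX, h.ge⟩
  · rintro ⟨X, hX, h⟩
    obtain ⟨X', hX', hc⟩ := Finset.exists_subset_card_eq h
    exact ⟨X', hX.subset (by exact_mod_cast hX'), hc⟩

/-- The number of the blocks. -/
theorem blocks_bound {N a E : ℕ} (ha : 1 ≤ a) (haE : a ≤ E) (hN : 16 * E ≤ N) :
    N ^ 2 ≤ 2 ^ 8 * (N / 8 * (N / 8 / a)) * E := by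
  set A := N / 8 with hA
  set S := A / a with hS
  have h3 : A < (S + 1) * a := (Nat.div_lt_iff_lt_mul (by omega)).mp (Nat.lt_succ_self _)
  have h4 : N < 8 * A + 8 := by omega
  have h5 : N ≤ 16 * (S * E) := by
    have h6 : S * a ≤ S * E := Nat.mul_le_mul_left _ haE
    rw [Nat.add_mul, one_mul] at h3
    rcases Nat.eq_zero_or_pos S with h0 | h0
    · rw [h0, zero_mul] at h3
      omega
    · by_cases hE : E = a
      · subst hE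
        have h7 : 1 * E ≤ S * E := Nat.mul_le_mul_right _ h0
        omega
      · omega
  have h6 : N ≤ 16 * A := by omega
  calc N ^ 2 = N * N := by ring
    _ ≤ (16 * A) * (16 * (S * E)) := Nat.mul_le_mul h6 h5
    _ = 2 ^ 8 * (A * S) * E := by ring

section Common

variable {N κ v m q : ℕ}

theorem aux_kappa (hMc : (m * (2 * (v + 1) + 1)) ^ 2 ≤ 2 ^ 30 * (v ^ 4 * (Nat.log 2 v + 1) ^ 6))
    (hκ1 : 2 ^ 16 * v ^ 2 * (Nat.log 2 v + 1) ^ 3 < κ) :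
    1 + (m * (2 * (v + 1) + 1) + (m + (κ - (1 + (m * (2 * (v + 1) + 1) + m))))) = κ := by
  have h0 : m * (2 * (v + 1) + 1) ≤ 2 ^ 15 * v ^ 2 * (Nat.log 2 v + 1) ^ 3 := by
    have h1 : (m * (2 * (v + 1) + 1)) ^ 2 ≤ (2 ^ 15 * v ^ 2 * (Nat.log 2 v + 1) ^ 3) ^ 2 := by
      refine hMc.trans (le_of_eq ?_)
      ring
    exact (Nat.pow_le_pow_iff_left (by norm_num)).mp h1
  have h1 : m * 1 ≤ m * (2 * (v + 1) + 1) := Nat.mul_le_mul_left _ (by omega)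
  have h2 : 2 ^ 16 * v ^ 2 * (Nat.log 2 v + 1) ^ 3 =
      2 * (2 ^ 15 * v ^ 2 * (Nat.log 2 v + 1) ^ 3) := by ring
  omega

theorem aux_fit (hκ2 : 2 * κ ≤ N)
    (hG : m * ((2 * (v + 1) + 1) * (q * q)) ≤ 2 ^ 52 * (v ^ 4 * (Nat.log 2 v + 1) ^ 6))
    (hN : 2 ^ 55 * v ^ 4 * (Nat.log 2 v + 1) ^ 6 ≤ N) (P : ℕ) (hP : P ≤ κ) :
    N / 8 + Fintype.card (Gad (2 * (v + 1)) m q ⊕
      ((Fin (N / 8 / (m * q)) × (Fin m × Fin q)) ⊕ Fin P)) ≤ N := by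
  have h1 : N / 8 / (m * q) * (m * q) ≤ N / 8 := Nat.div_mul_le_self _ _
  have h2 : 2 ^ 55 * v ^ 4 * (Nat.log 2 v + 1) ^ 6 =
      8 * (2 ^ 52 * (v ^ 4 * (Nat.log 2 v + 1) ^ 6)) := by ring
  simp only [Fintype.card_sum, Fintype.card_prod, Fintype.card_fin]
  omega

theorem aux_blocks (hv : 1 ≤ v) (hm : 1 ≤ m) (hq : 0 < q)
    (hmq : m * q ≤ 2 ^ 25 * (v ^ 2 * (Nat.log 2 v + 1) ^ 3))
    (hN : 2 ^ 55 * v ^ 4 * (Nat.log 2 v + 1) ^ 6 ≤ N) :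
    N ^ 2 ≤ 2 ^ 33 * v ^ 2 * (Nat.log 2 v + 1) ^ 3 * (N / 8 * (N / 8 / (m * q))) ∧
      m * q + 4 ≤ N ^ 2 := by
  set L := Nat.log 2 v + 1 with hL
  have hL1 : 1 ≤ L := by omega
  have hmq1 : 1 ≤ m * q := Nat.mul_pos hm hq
  have hvD : v ^ 2 * L ^ 3 ≤ v ^ 4 * L ^ 6 := Nat.mul_le_mul
    (Nat.pow_le_pow_right hv (by norm_num)) (Nat.pow_le_pow_right hL1 (by norm_num))
  have hD1 : 1 ≤ v ^ 4 * L ^ 6 := by
    have : 0 < v ^ 4 * L ^ 6 := by positivity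
    omega
  have h55 : 2 ^ 55 * v ^ 4 * L ^ 6 = 2 ^ 55 * (v ^ 4 * L ^ 6) := by ring
  constructor
  · have h := blocks_bound (N := N) (a := m * q) (E := 2 ^ 25 * (v ^ 2 * L ^ 3)) hmq1 hmq
      (by omega)
    calc N ^ 2 ≤ 2 ^ 8 * (N / 8 * (N / 8 / (m * q))) * (2 ^ 25 * (v ^ 2 * L ^ 3)) := h
      _ = 2 ^ 33 * v ^ 2 * L ^ 3 * (N / 8 * (N / 8 / (m * q))) := by ring
  · have h3 : N * 1 ≤ N ^ 2 := by
      rw [pow_two]
      exact Nat.mul_le_mul_left _ (by omega)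
    omega

end Common

/-- **The clique function has no small circuit with few entry changes.** -/
theorem clique_bound {N κ s T v : ℕ} (C : Net (EdgeVar N) s) (hC : C.Decides (HasClique N κ))
    (hT : C.EntryChangesLE T) (hv : 1 ≤ v) (hκ1 : 2 ^ 16 * v ^ 2 * (Nat.log 2 v + 1) ^ 3 < κ)
    (hκ2 : 2 * κ ≤ N) (hN : 2 ^ 55 * v ^ 4 * (Nat.log 2 v + 1) ^ 6 ≤ N)
    (hTN : 2 ^ 34 * (T + 1) * v ^ 2 * (Nat.log 2 v + 1) ^ 3 ≤ N ^ 2) : 2 ^ v < N ^ 2 + s := by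
  classical
  obtain ⟨m, q, hm1, hq, hmq, hMc, hG, hard⟩ := exists_hard v hv
  obtain ⟨hb, hmqN⟩ := aux_blocks hv hm1 hq hmq hN
  have hfit := aux_fit hκ2 hG hN (κ - (1 + (m * (2 * (v + 1) + 1) + m))) (by omega)
  have hTB : T < N / 8 * (N / 8 / (m * q)) := by
    set L := Nat.log 2 v + 1 with hL
    have hpos : 0 < 2 ^ 33 * v ^ 2 * L ^ 3 := by positivity
    have h1 : 2 ^ 33 * v ^ 2 * L ^ 3 * (2 * (T + 1)) ≤
        2 ^ 33 * v ^ 2 * L ^ 3 * (N / 8 * (N / 8 / (m * q))) := by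
      refine le_trans (le_of_eq ?_) (hTN.trans hb)
      ring
    have h2 := Nat.le_of_mul_le_mul_left h1 hpos
    omega
  have hres := hard (EdgeVar N) (Fin (N / 8) × Fin (N / 8 / (m * q))) s T C (HasClique N κ) hC hT
    (by simpa using hTB) (z0 hfit) (phi hfit) (phi_inj hfit) (z0_phi hfit) (by
      intro x
      rw [← clique_iff (by omega) hm1 hq hfit x, hasClique_iff, aux_kappa hMc hκ1])
  omega

/-- **The average-case bound for the clique function.** -/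
theorem clique_avg {N κ v : ℕ} (hv : 1 ≤ v)
    (hκ1 : 2 ^ 16 * v ^ 2 * (Nat.log 2 v + 1) ^ 3 < κ) (hκ2 : 2 * κ ≤ N)
    (hN : 2 ^ 55 * v ^ 4 * (Nat.log 2 v + 1) ^ 6 ≤ N) :
    ∃ (Ω : Type) (_ : Fintype Ω) (_ : Nonempty Ω) (Z : Ω → EdgeVar N → Bool),
      ∀ (s T : ℕ) (C : Net (EdgeVar N) s), N ^ 2 + s ≤ 2 ^ v → C.EntryChangesLE T →
        prob (fun ω => C.Accepts (Z ω) ↔ HasClique N κ (Z ω)) ≤
          1 / 2 + 2 ^ 32 * (T : ℝ) * v ^ 2 * (Nat.log 2 v + 1 : ℕ) ^ 3 / N ^ 2 +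
            (1 / 2 : ℝ) ^ v := by
  classical
  by_cases hNv : N ^ 2 ≤ 2 ^ v
  swap
  · refine ⟨Unit, inferInstance, inferInstance, fun _ _ => false, ?_⟩
    intro s T C h
    omega
  obtain ⟨m, q, hm1, hq, hmq, hMc, hG, hard⟩ := exists_hard_avg v hv
  obtain ⟨hb, hmqN⟩ := aux_blocks hv hm1 hq hmq hN
  have hfit := aux_fit hκ2 hG hN (κ - (1 + (m * (2 * (v + 1) + 1) + m))) (by omega)
  have hN1 : 0 < N ^ 2 := by omega
  set B := N / 8 * (N / 8 / (m * q)) with hB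
  have hBpos : 0 < B := by
    rcases Nat.eq_zero_or_pos B with h0 | h0
    · rw [h0] at hb
      simp at hb
      omega
    · exact h0
  have hBv : B ≤ 2 ^ v := by
    refine le_trans ?_ hNv
    rw [hB, pow_two]
    refine Nat.mul_le_mul ?_ ?_
    · exact Nat.div_le_self _ _
    · exact (Nat.div_le_self _ _).trans (Nat.div_le_self _ _)
  obtain ⟨Ω, h1, h2, Z, hZ⟩ := hard (EdgeVar N) (Fin (N / 8) × Fin (N / 8 / (m * q)))
    (HasClique N κ) (z0 hfit) (phi hfit) (by simpa [hB] using hBpos) (by simpa [hB] using hBv)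
    (phi_inj hfit) (z0_phi hfit) (by
      intro x
      rw [← clique_iff (by omega) hm1 hq hfit x, hasClique_iff, aux_kappa hMc hκ1])
  refine ⟨Ω, h1, h2, Z, ?_⟩
  intro s T C hs hT
  refine (hZ s T C (by omega) hT).trans ?_
  have hcard : (Fintype.card (Fin (N / 8) × Fin (N / 8 / (m * q))) : ℝ) = B := by
    rw [Fintype.card_prod, Fintype.card_fin, Fintype.card_fin]
  rw [hcard]
  have hBR : (0 : ℝ) < B := by exact_mod_cast hBpos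
  have hNR : (0 : ℝ) < (N : ℝ) ^ 2 := by exact_mod_cast hN1
  have h3 : (T : ℝ) / (2 * B) ≤
      2 ^ 32 * (T : ℝ) * v ^ 2 * (Nat.log 2 v + 1 : ℕ) ^ 3 / N ^ 2 := by
    rw [div_le_div_iff₀ (by positivity) hNR]
    have h4 : ((N : ℝ) ^ 2) ≤ 2 ^ 33 * v ^ 2 * (Nat.log 2 v + 1 : ℕ) ^ 3 * B := by
      exact_mod_cast hb
    have h5 : (0 : ℝ) ≤ (T : ℝ) := by positivity
    calc (T : ℝ) * N ^ 2 ≤ T * (2 ^ 33 * v ^ 2 * (Nat.log 2 v + 1 : ℕ) ^ 3 * B) :=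
          mul_le_mul_of_nonneg_left h4 h5
      _ = 2 ^ 32 * (T : ℝ) * v ^ 2 * (Nat.log 2 v + 1 : ℕ) ^ 3 * (2 * B) := by ring
  linarith

end Pool.Agent.Lib_MP_22d2c8_clq
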