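import Pool.Agent.Lib_MP_22d2c8_clq.Net

/-!
# The gadget: partial sums of a polynomial

A vertex `(j, t, s, c)` of the gadget says: the partial sum of the first `t` terms of the polynomial
at the point `j` is `s`, and the coefficient number `t` is `c`.
-/

namespace Pool.Agent.Lib_MP_22d2c8_clq

open Finset

/-- The vertices of the gadget. -/
abbrev Gad (w m q : ℕ) : Type := Fin m × Fin (w + 1) × Fin q × Fin q

/-- The partial sum of no terms is zero, and there is no coefficient number `w`. -/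
def GValid {w m q : ℕ} (u : Gad w m q) : Prop :=
  ((u.2.1 : ℕ) = 0 → (u.2.2.1 : ℕ) = 0) ∧ ((u.2.1 : ℕ) = w → (u.2.2.2 : ℕ) = 0)

/-- If `u'` is the state after `u` then its partial sum is right. -/
def GNext {w m q : ℕ} (u u' : Gad w m q) : Prop :=
  u.1 = u'.1 → (u'.2.1 : ℕ) = (u.2.1 : ℕ) + 1 →
    (u'.2.2.1 : ℕ) = ((u.2.2.1 : ℕ) + (u.2.2.2 : ℕ) * (u.1 : ℕ) ^ (u.2.1 : ℕ)) % q

/-- The edges of the gadget. -/
def GAdj {w m q : ℕ} (u u' : Gad w m q) : Prop :=
  GValid u ∧ GValid u' ∧ (u.1, u.2.1) ≠ (u'.1, u'.2.1) ∧ (u.2.1 = u'.2.1 → u.2.2.2 = u'.2.2.2) ∧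
    GNext u u' ∧ GNext u' u

theorem GAdj.symm {w m q : ℕ} {u u' : Gad w m q} (h : GAdj u u') : GAdj u' u :=
  ⟨h.2.1, h.1, fun e => h.2.2.1 e.symm, fun e => (h.2.2.2.1 e.symm).symm, h.2.2.2.2.2,
    h.2.2.2.2.1⟩

/-- The coefficients as a function on the natural numbers. -/
def coef {w q : ℕ} (a : Fin w → Fin q) (l : ℕ) : ℕ := if h : l < w then (a ⟨l, h⟩ : ℕ) else 0

/-- The state of the polynomial `a` at the point `j` after `t` terms. -/
def pick {w m q : ℕ} (hq : 0 < q) (a : Fin w → Fin q) (j : Fin m) (t : Fin (w + 1)) :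
    Gad w m q :=
  (j, t, ⟨(∑ l ∈ Finset.range (t : ℕ), coef a l * (j : ℕ) ^ l) % q, Nat.mod_lt _ hq⟩,
    if h : (t : ℕ) < w then a ⟨t, h⟩ else ⟨0, hq⟩)

theorem pick_next {w m q : ℕ} (hq : 0 < q) (a : Fin w → Fin q) (j j' : Fin m)
    (t t' : Fin (w + 1)) : GNext (pick hq a j t) (pick hq a j' t') := by
  intro hj ht
  have hj' : j = j' := hj
  subst hj'
  have ht' : (t' : ℕ) = (t : ℕ) + 1 := ht
  have htw : (t : ℕ) < w := by have := t'.2; omega
  show (∑ l ∈ Finset.range (t' : ℕ), coef a l * (j : ℕ) ^ l) % q =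
    ((∑ l ∈ Finset.range (t : ℕ), coef a l * (j : ℕ) ^ l) % q +
      ((if h : (t : ℕ) < w then a ⟨t, h⟩ else ⟨0, hq⟩ : Fin q) : ℕ) * (j : ℕ) ^ (t : ℕ)) % q
  rw [ht', Finset.sum_range_succ, dif_pos htw]
  have hc : coef a (t : ℕ) = (a ⟨t, htw⟩ : ℕ) := by
    unfold coef
    rw [dif_pos htw]
  rw [hc]
  simp [Nat.add_mod]

theorem pick_valid {w m q : ℕ} (hq : 0 < q) (a : Fin w → Fin q) (j : Fin m)
    (t : Fin (w + 1)) : GValid (pick hq a j t) := by
  constructor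
  · intro h
    have h' : (t : ℕ) = 0 := h
    show (∑ l ∈ Finset.range (t : ℕ), coef a l * (j : ℕ) ^ l) % q = 0
    rw [h']
    simp
  · intro h
    have h' : (t : ℕ) = w := h
    show ((if h : (t : ℕ) < w then a ⟨t, h⟩ else ⟨0, hq⟩ : Fin q) : ℕ) = 0
    rw [dif_neg (by omega)]

theorem pick_adj {w m q : ℕ} (hq : 0 < q) (a : Fin w → Fin q) (j j' : Fin m)
    (t t' : Fin (w + 1)) (hne : (j, t) ≠ (j', t')) :
    GAdj (pick hq a j t) (pick hq a j' t') := by
  refine ⟨pick_valid hq a j t, pick_valid hq a j' t', hne, ?_, pick_next hq a j j' t t',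
    pick_next hq a j' j t' t⟩
  intro h
  have h' : t = t' := h
  subst h'
  rfl

theorem pick_last {w m q : ℕ} (hq : 0 < q) (a : Fin w → Fin q) (j : Fin m) :
    pick hq a j (Fin.last w) =
      (j, Fin.last w, ⟨(∑ l, (a l : ℕ) * (j : ℕ) ^ (l : ℕ)) % q, Nat.mod_lt _ hq⟩,
        ⟨0, hq⟩) := by
  unfold pick
  rw [dif_neg (by simp)]
  have h : (∑ l ∈ Finset.range ((Fin.last w : Fin (w + 1)) : ℕ), coef a l * (j : ℕ) ^ l) =
      ∑ l, (a l : ℕ) * (j : ℕ) ^ (l : ℕ) := by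
    rw [Fin.val_last, Finset.sum_range]
    refine Finset.sum_congr rfl fun l _ => ?_
    unfold coef
    rw [dif_pos l.2]
  simp only [h]

/-- Pairwise adjacent states come from a polynomial. -/
theorem exists_poly {w m q : ℕ} (hw : 1 ≤ w) (hm : 1 ≤ m) (hq : 0 < q)
    (Q : Fin m → Fin (w + 1) → Gad w m q) (hQ1 : ∀ j t, (Q j t).1 = j)
    (hQ2 : ∀ j t, (Q j t).2.1 = t)
    (hadj : ∀ j t j' t', (j, t) ≠ (j', t') → GAdj (Q j t) (Q j' t')) :
    ∃ a : Fin w → Fin q, ∀ j, Q j (Fin.last w) =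
      (j, Fin.last w, ⟨(∑ l, (a l : ℕ) * (j : ℕ) ^ (l : ℕ)) % q, Nat.mod_lt _ hq⟩,
        ⟨0, hq⟩) := by
  have hval : ∀ j t, GValid (Q j t) := by
    intro j t
    by_cases ht : t = 0
    · refine (hadj j t j 1 ?_).1
      intro h
      have h1 : t = 1 := congrArg Prod.snd h
      rw [ht] at h1
      have h2 := congrArg Fin.val h1
      have h3 : ((1 : Fin (w + 1)) : ℕ) = 1 := by
        rw [Fin.val_one']
        exact Nat.mod_eq_of_lt (by omega)
      rw [h3] at h2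
      simp at h2
    · exact (hadj j t j 0 (fun h => ht (congrArg Prod.snd h))).1
  let j0 : Fin m := ⟨0, hm⟩
  let a : Fin w → Fin q := fun l => (Q j0 ⟨l, by omega⟩).2.2.2
  have hc : ∀ (j : Fin m) (l : ℕ) (hl : l < w),
      (Q j ⟨l, by omega⟩).2.2.2 = a ⟨l, hl⟩ := by
    intro j l hl
    by_cases hj : j = j0
    · subst hj
      rfl
    · have h := (hadj j ⟨l, by omega⟩ j0 ⟨l, by omega⟩
        (fun h => hj (congrArg Prod.fst h))).2.2.2.1
      exact h (by rw [hQ2, hQ2])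
  have hs : ∀ (j : Fin m) (t : ℕ) (ht : t < w + 1), ((Q j ⟨t, ht⟩).2.2.1 : ℕ) =
      (∑ l ∈ Finset.range t, coef a l * (j : ℕ) ^ l) % q := by
    intro j t
    induction t with
    | zero =>
      intro ht
      have h := (hval j ⟨0, ht⟩).1 (by rw [hQ2])
      rw [h]
      simp
    | succ t ih =>
      intro ht
      have ih' := ih (by omega)
      have h := (hadj j ⟨t, by omega⟩ j ⟨t + 1, ht⟩ (fun h => by
        have := congrArg (fun p : Fin m × Fin (w + 1) => (p.2 : ℕ)) h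
        simp at this)).2.2.2.2.1
      have h2 := h (by rw [hQ1, hQ1]) (by rw [hQ2, hQ2])
      rw [h2, ih', hc j t (by omega), hQ1, hQ2, Finset.sum_range_succ]
      have hco : coef a t = (a ⟨t, by omega⟩ : ℕ) := by
        unfold coef
        rw [dif_pos (by omega)]
      rw [hco]
      simp [Nat.add_mod]
  refine ⟨a, fun j => ?_⟩
  have h1 := hQ1 j (Fin.last w)
  have h2 := hQ2 j (Fin.last w)
  have h3 := hs j w (by omega)
  have h4 := (hval j (Fin.last w)).2 (by rw [h2]; simp)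
  have h5 : (∑ l ∈ Finset.range w, coef a l * (j : ℕ) ^ l) =
      ∑ l, (a l : ℕ) * (j : ℕ) ^ (l : ℕ) := by
    rw [Finset.sum_range]
    refine Finset.sum_congr rfl fun l _ => ?_
    unfold coef
    rw [dif_pos l.2]
  rw [h5] at h3
  have h6 : (⟨w, by omega⟩ : Fin (w + 1)) = Fin.last w := rfl
  rw [h6] at h3
  refine Prod.ext h1 (Prod.ext h2 (Prod.ext (Fin.ext h3) (Fin.ext h4)))

end Pool.Agent.Lib_MP_22d2c8_clq
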