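import Pool.Agent.Lib_MP_22d2c8_rsf.AvgFinal

/-!
# Circuits over an arbitrary set of input variables

A circuit has and-gates and or-gates of any fan-in and arbitrary gates (such as NOT gates); its
inputs are the elements of `V`.
-/

namespace Pool.Agent.Lib_MP_22d2c8_clq

open Finset
open Pool.Agent.Lib_MP_22d2c8_gen (Op Circuit)

/-- A Boolean circuit whose inputs are the variables in `V`, with `s` gates and one output vertex;
there is no directed cycle (there is a numbering of the vertices which increases along every wire). -/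
structure Net (V : Type) (s : ℕ) where
  /-- the gates -/
  op : Fin s → Op (V ⊕ Fin s)
  /-- the output vertex -/
  out : V ⊕ Fin s
  /-- there is no directed cycle -/
  acyclic : ∃ rank : V ⊕ Fin s → ℕ, ∀ g, ∀ u ∈ (op g).preds, rank u < rank (Sum.inr g)

namespace Net

variable {V : Type} {s : ℕ}

/-- `a` is the assignment of values to the vertices for the input `x`. -/
def IsRun (C : Net V s) (x : V → Bool) (a : V ⊕ Fin s → Bool) : Prop :=
  (∀ j, a (Sum.inl j) = x j) ∧ ∀ g, a (Sum.inr g) = (C.op g).eval a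

/-- The circuit decides the property `P` of the inputs. -/
def Decides (C : Net V s) (P : (V → Bool) → Prop) : Prop :=
  ∀ x : V → Bool, ∃ a : V ⊕ Fin s → Bool, C.IsRun x a ∧ (a C.out = true ↔ P x)

/-- The vertex `u` is an entry vertex: a wire goes from `u` to an arbitrary gate. -/
def IsEntry (C : Net V s) (u : V ⊕ Fin s) : Prop :=
  ∃ g, (C.op g).isArb = true ∧ u ∈ (C.op g).preds

/-- The number of wires which enter arbitrary gates (the number of NOT gates if all the arbitrary
gates are NOT gates). -/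
def entryWires (C : Net V s) : ℕ :=
  ∑ g ∈ Finset.univ.filter (fun g => (C.op g).isArb = true), (C.op g).preds.card

open Classical in
/-- Along every increasing chain of inputs the vector of the values of the entry vertices changes
at most `T` times. -/
def EntryChangesLE (C : Net V s) (T : ℕ) : Prop :=
  ∀ (m : ℕ) (x : ℕ → V → Bool) (a : ℕ → V ⊕ Fin s → Bool),
    (∀ i < m, ∀ j, x i j = true → x (i + 1) j = true) → (∀ i ≤ m, C.IsRun (x i) (a i)) →
    ((Finset.range m).filter (fun i => ∃ u, C.IsEntry u ∧ a i u ≠ a (i + 1) u)).card ≤ T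

/-! ### Renaming the inputs -/

/-- The renaming of the vertices. -/
def ren {n : ℕ} (s : ℕ) (e : V ≃ Fin n) : V ⊕ Fin s ≃ Fin n ⊕ Fin s :=
  Equiv.sumCongr e (Equiv.refl _)

/-- The circuit with renamed inputs. -/
def toCircuit {n : ℕ} (C : Net V s) (e : V ≃ Fin n) : Circuit n s where
  op := fun g => (C.op g).map (ren s e)
  out := ren s e C.out
  acyclic := by
    obtain ⟨rank, hrank⟩ := C.acyclic
    refine ⟨fun v => rank ((ren s e).symm v), ?_⟩
    intro g u hu
    rw [Pool.Agent.Lib_MP_22d2c8_gen.Op.mem_preds_map] at hu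
    exact hrank _ _ hu

theorem eval_map_gen {W : Type} (E : V ≃ W) (o : Op V) (a : V → Bool) :
    (o.map E).eval (fun w => a (E.symm w)) = o.eval a := by
  rcases o with Q | Q | ⟨Q, φ⟩
  · exact Pool.Agent.Lib_MP_22d2c8_gen.Op.eval_map E _ rfl a
  · exact Pool.Agent.Lib_MP_22d2c8_gen.Op.eval_map E _ rfl a
  · simp only [Pool.Agent.Lib_MP_22d2c8_gen.Op.map, Op.eval]
    congr 1
    ext u
    simp only [Finset.mem_map_equiv, Finset.mem_filter, Equiv.symm_symm, Equiv.symm_apply_apply]

theorem isRun_toCircuit {n : ℕ} (C : Net V s) (e : V ≃ Fin n) (x : V → Bool)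
    (a : V ⊕ Fin s → Bool) (ha : C.IsRun x a) :
    (C.toCircuit e).IsRun (fun j => x (e.symm j)) (fun v => a ((ren s e).symm v)) := by
  refine ⟨fun j => ?_, fun g => ?_⟩
  · show a (Sum.inl (e.symm j)) = _
    exact ha.1 _
  · show a (Sum.inr g) = ((C.op g).map (ren s e)).eval _
    rw [eval_map_gen]
    exact ha.2 g

theorem isRun_of_toCircuit {n : ℕ} (C : Net V s) (e : V ≃ Fin n) (x : Fin n → Bool)
    (a : Fin n ⊕ Fin s → Bool) (ha : (C.toCircuit e).IsRun x a) :
    C.IsRun (fun j => x (e j)) (fun v => a (ren s e v)) := by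
  refine ⟨fun j => ?_, fun g => ?_⟩
  · show a (Sum.inl (e j)) = _
    exact ha.1 _
  · show a (Sum.inr g) = _
    rw [ha.2 g]
    show ((C.op g).map (ren s e)).eval a = _
    rw [← eval_map_gen (ren s e) (C.op g) (fun v => a (ren s e v))]
    simp only [Equiv.apply_symm_apply]

theorem mem_entry_toCircuit {n : ℕ} (C : Net V s) (e : V ≃ Fin n) (u : Fin n ⊕ Fin s) :
    u ∈ (C.toCircuit e).entry ↔ C.IsEntry ((ren s e).symm u) := by
  rw [Pool.Agent.Lib_MP_22d2c8_gen.mem_entry]
  unfold IsEntry
  constructor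
  · rintro ⟨g, hg, hu⟩
    refine ⟨g, ?_, ?_⟩
    · have h : ((C.op g).map (ren s e)).isArb = true := hg
      rwa [Pool.Agent.Lib_MP_22d2c8_gen.Op.isArb_map] at h
    · have h : u ∈ ((C.op g).map (ren s e)).preds := hu
      rwa [Pool.Agent.Lib_MP_22d2c8_gen.Op.mem_preds_map] at h
  · rintro ⟨g, hg, hu⟩
    refine ⟨g, ?_, ?_⟩
    · show ((C.op g).map (ren s e)).isArb = true
      rwa [Pool.Agent.Lib_MP_22d2c8_gen.Op.isArb_map]
    · show u ∈ ((C.op g).map (ren s e)).preds
      rwa [Pool.Agent.Lib_MP_22d2c8_gen.Op.mem_preds_map]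

theorem changes_toCircuit {n : ℕ} (C : Net V s) (e : V ≃ Fin n) (T : ℕ)
    (hT : C.EntryChangesLE T) : (C.toCircuit e).EntryChangesLE T := by
  classical
  intro m x a hx ha
  have h := hT m (fun i j => x i (e j)) (fun i v => a i (ren s e v))
    (fun i hi j hj => hx i hi (e j) hj) (fun i hi => isRun_of_toCircuit C e (x i) (a i) (ha i hi))
  refine le_trans (le_of_eq ?_) h
  congr 1
  apply Finset.filter_congr
  intro i _
  constructor
  · rintro ⟨u, hu, hne⟩
    refine ⟨(ren s e).symm u, (mem_entry_toCircuit C e u).mp hu, ?_⟩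
    simpa using hne
  · rintro ⟨u, hu, hne⟩
    refine ⟨ren s e u, (mem_entry_toCircuit C e _).mpr (by simpa using hu), hne⟩

theorem changes_of_toCircuit {n : ℕ} (C : Net V s) (e : V ≃ Fin n) (T : ℕ)
    (hT : (C.toCircuit e).EntryChangesLE T) : C.EntryChangesLE T := by
  classical
  intro m x a hx ha
  have h := hT m (fun i j => x i (e.symm j)) (fun i v => a i ((ren s e).symm v))
    (fun i hi j hj => hx i hi (e.symm j) hj)
    (fun i hi => isRun_toCircuit C e (x i) (a i) (ha i hi))
  refine le_trans (le_of_eq ?_) h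
  congr 1
  apply Finset.filter_congr
  intro i _
  constructor
  · rintro ⟨u, hu, hne⟩
    refine ⟨ren s e u, (mem_entry_toCircuit C e _).mpr (by simpa using hu), ?_⟩
    simpa using hne
  · rintro ⟨u, hu, hne⟩
    exact ⟨(ren s e).symm u, (mem_entry_toCircuit C e u).mp hu, hne⟩

theorem entryWires_toCircuit {n : ℕ} (C : Net V s) (e : V ≃ Fin n) :
    (C.toCircuit e).entryWires = C.entryWires := by
  unfold entryWires Pool.Agent.Lib_MP_22d2c8_gen.Circuit.entryWires
  have h1 : ∀ g, ((C.toCircuit e).op g).isArb = (C.op g).isArb := fun g =>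
    Pool.Agent.Lib_MP_22d2c8_gen.Op.isArb_map _ _
  have h2 : ∀ g, ((C.toCircuit e).op g).preds.card = (C.op g).preds.card := by
    intro g
    show ((C.op g).map (ren s e)).preds.card = _
    rcases C.op g with Q | Q | ⟨Q, φ⟩ <;>
      simp only [Pool.Agent.Lib_MP_22d2c8_gen.Op.map, Op.preds, Finset.card_map]
  simp only [h1, h2]

/-- `t` wires into arbitrary gates: at most `2 ^ t - 1` changes. -/
theorem changes_wires [Fintype V] (C : Net V s) : C.EntryChangesLE (2 ^ C.entryWires - 1) := by
  have e := Fintype.equivFin V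
  apply changes_of_toCircuit C e
  rw [← entryWires_toCircuit C e]
  exact Pool.Agent.Lib_MP_22d2c8_gen.changes_wires _

/-- A level function with levels below `M` for the entry vertices: the level does not decrease
along wires, and it increases strictly along a wire which enters an arbitrary gate. -/
def IsLevel (C : Net V s) (M : ℕ) (lev : V ⊕ Fin s → ℕ) : Prop :=
  (∀ u, C.IsEntry u → lev u < M) ∧
  (∀ g, ∀ u ∈ (C.op g).preds, lev u ≤ lev (Sum.inr g)) ∧
  (∀ g, (C.op g).isArb = true → ∀ u ∈ (C.op g).preds, lev u < lev (Sum.inr g))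

open Classical in
/-- The product over the levels of one plus the number of entry vertices of the level. -/
noncomputable def entryProd [Fintype V] (C : Net V s) (M : ℕ) (lev : V ⊕ Fin s → ℕ) : ℕ :=
  ∏ l ∈ Finset.range M, (1 + (Finset.univ.filter (fun u => C.IsEntry u ∧ lev u = l)).card)

theorem changes_of_level [Fintype V] (C : Net V s) (M : ℕ) (lev : V ⊕ Fin s → ℕ)
    (h : C.IsLevel M lev) : C.EntryChangesLE (C.entryProd M lev - 1) := by
  classical
  have e := Fintype.equivFin V
  apply changes_of_toCircuit C e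
  have hlev : (C.toCircuit e).IsLevel M (fun u => lev ((ren s e).symm u)) := by
    refine ⟨fun u hu => h.1 _ ((mem_entry_toCircuit C e u).mp hu), fun g u hu => ?_,
      fun g hg u hu => ?_⟩
    · have hu' : (ren s e).symm u ∈ (C.op g).preds := by
        rwa [← Pool.Agent.Lib_MP_22d2c8_gen.Op.mem_preds_map]
      exact h.2.1 g _ hu'
    · have hu' : (ren s e).symm u ∈ (C.op g).preds := by
        rwa [← Pool.Agent.Lib_MP_22d2c8_gen.Op.mem_preds_map]
      have hg' : (C.op g).isArb = true := by
        rw [← Pool.Agent.Lib_MP_22d2c8_gen.Op.isArb_map (ren s e)]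
        exact hg
      exact h.2.2 g hg' _ hu'
  have h1 := Pool.Agent.Lib_MP_22d2c8_gen.changes_of_level (C.toCircuit e) M _ hlev
  have h2 : (C.toCircuit e).entryProd M (fun u => lev ((ren s e).symm u)) =
      C.entryProd M lev := by
    unfold entryProd Pool.Agent.Lib_MP_22d2c8_gen.Circuit.entryProd
    refine Finset.prod_congr rfl fun l _ => ?_
    congr 1
    refine Finset.card_bij (fun u _ => (ren s e).symm u) ?_ ?_ ?_
    · intro u hu
      rw [Finset.mem_filter] at hu ⊢
      exact ⟨Finset.mem_univ _, (mem_entry_toCircuit C e u).mp hu.1, hu.2⟩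
    · intro u _ u' _ huu
      exact (ren s e).symm.injective huu
    · intro u hu
      rw [Finset.mem_filter] at hu
      refine ⟨ren s e u, ?_, by simp⟩
      rw [Finset.mem_filter]
      exact ⟨(mem_entry_toCircuit C e _).mpr (by simpa using hu.2.1), by simpa using hu.2.2⟩
  rw [h2] at h1
  exact h1

end Net

/-! ### The transfer -/

/-- The input with the contents `x b` of the blocks and the constant background `z0` outside the
blocks; `φ b i` is the variable which carries the `i`-th bit of the block `b`. -/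
def fillIn {V I E : Type} (z0 : V → Prop) (φ : I → E → V) (x : I → E → Prop) (j : V) : Prop :=
  z0 j ∨ ∃ b i, x b i ∧ φ b i = j

/-- The function of one block: the array `x` contains the graph of a polynomial with `w`
coefficients modulo `q`. -/
def HasPoly (w m q : ℕ) (x : Fin m × Fin q → Prop) : Prop :=
  ∃ a : Fin w → Fin q, ∀ (j : Fin m) (c : Fin q),
    (c : ℕ) = (∑ l, (a l : ℕ) * (j : ℕ) ^ (l : ℕ)) % q → x (j, c)

theorem hasPoly_iff {w m q : ℕ} (y : Fin (m * q) → Bool) :
    HasPoly w m q (fun i => y (finProdFinEquiv i) = true) ↔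
      Pool.Agent.Lib_MP_22d2c8_rsf.block w m q y = true := by
  classical
  unfold HasPoly Pool.Agent.Lib_MP_22d2c8_rsf.block
  rw [decide_eq_true_eq]
  refine exists_congr fun a => ?_
  constructor
  · rintro h ⟨j, c⟩ hp
    exact h j c (Finset.mem_filter.mp hp).2
  · intro h j c hjc
    exact h (j, c) (by
      unfold Pool.Agent.Lib_MP_22d2c8_rsf.graph
      rw [Finset.mem_filter]
      exact ⟨Finset.mem_univ _, hjc⟩)

/-- The background with renamed variables. -/
noncomputable def bgr {V : Type} {n : ℕ} (e : V ≃ Fin n) (z0 : V → Prop) : Fin n → Bool :=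
  fun j => @decide (z0 (e.symm j)) (Classical.propDecidable _)

/-- The places of the blocks with renamed variables and blocks. -/
def plc {V I : Type} {n B m q : ℕ} (e : V ≃ Fin n) (eI : I ≃ Fin B) (φ : I → Fin m × Fin q → V) :
    Fin B → Fin (m * q) → Fin n :=
  fun b i => e (φ (eI.symm b) (finProdFinEquiv.symm i))

theorem plc_disj {V I : Type} {n B m q : ℕ} (e : V ≃ Fin n) (eI : I ≃ Fin B)
    (φ : I → Fin m × Fin q → V) (hφ : ∀ b b' i i', φ b i = φ b' i' → b = b' ∧ i = i') :
    Pool.Agent.Lib_MP_22d2c8_gen.Disj (plc e eI φ) := by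
  intro b b' i i' h
  obtain ⟨h1, h2⟩ := hφ _ _ _ _ (e.injective h)
  exact ⟨eI.symm.injective h1, finProdFinEquiv.symm.injective h2⟩

theorem bgr_plc {V I : Type} {n B m q : ℕ} (e : V ≃ Fin n) (eI : I ≃ Fin B) (z0 : V → Prop)
    (φ : I → Fin m × Fin q → V) (hz : ∀ b i, ¬ z0 (φ b i)) (b : Fin B) (i : Fin (m * q)) :
    bgr e z0 (plc e eI φ b i) = false := by
  refine @decide_eq_false _ (Classical.propDecidable _) ?_
  unfold plc
  rw [Equiv.symm_apply_apply]
  exact hz _ _

open Classical in
theorem cfg_eq {V I : Type} {n B m q : ℕ} (e : V ≃ Fin n) (eI : I ≃ Fin B) (z0 : V → Prop)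
    (φ : I → Fin m × Fin q → V) (x : Fin B → Fin (m * q) → Bool) :
    (fun j => Pool.Agent.Lib_MP_22d2c8_gen.cfgB (bgr e z0) (plc e eI φ) x (e j)) =
      (fun j => decide (fillIn z0 φ (fun b i => x (eI b) (finProdFinEquiv i) = true) j)) := by
  funext j
  have key : Pool.Agent.Lib_MP_22d2c8_gen.cfgB (bgr e z0) (plc e eI φ) x (e j) = true ↔
      fillIn z0 φ (fun b i => x (eI b) (finProdFinEquiv i) = true) j := by
    unfold Pool.Agent.Lib_MP_22d2c8_gen.cfgB fillIn bgr plc
    rw [Bool.or_eq_true, decide_eq_true_eq, decide_eq_true_eq]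
    rw [Equiv.symm_apply_apply]
    refine or_congr Iff.rfl ?_
    constructor
    · rintro ⟨b, i, hx, hj⟩
      refine ⟨eI.symm b, finProdFinEquiv.symm i, ?_, ?_⟩
      · show x (eI (eI.symm b)) (finProdFinEquiv (finProdFinEquiv.symm i)) = true
        rw [Equiv.apply_symm_apply, Equiv.apply_symm_apply]
        exact hx
      · exact e.injective hj
    · rintro ⟨b, i, hx, hj⟩
      refine ⟨eI b, finProdFinEquiv i, hx, ?_⟩
      show e (φ (eI.symm (eI b)) (finProdFinEquiv.symm (finProdFinEquiv i))) = e j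
      rw [Equiv.symm_apply_apply, Equiv.symm_apply_apply, hj]
  rw [Bool.eq_iff_iff, key, decide_eq_true_eq]

open Classical in
/-- The property of a filled input. -/
theorem prop_cfg {V I : Type} {n B w m q : ℕ} (e : V ≃ Fin n) (eI : I ≃ Fin B)
    (P : (V → Bool) → Prop) (z0 : V → Prop) (φ : I → Fin m × Fin q → V)
    (hf : ∀ x : I → Fin m × Fin q → Prop,
      P (fun j => decide (fillIn z0 φ x j)) ↔ ∃ b, HasPoly w m q (x b))
    (x : Fin B → Fin (m * q) → Bool) :
    P (fun j => Pool.Agent.Lib_MP_22d2c8_gen.cfgB (bgr e z0) (plc e eI φ) x (e j)) ↔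
      ∃ b, Pool.Agent.Lib_MP_22d2c8_rsf.block w m q (x b) = true := by
  rw [cfg_eq, hf]
  constructor
  · rintro ⟨b, hb⟩
    exact ⟨eI b, (hasPoly_iff _).mp hb⟩
  · rintro ⟨b, hb⟩
    refine ⟨eI.symm b, ?_⟩
    simp only [Equiv.apply_symm_apply]
    exact (hasPoly_iff _).mpr hb

open Classical in
/-- **The transfer.** A circuit with at most `T` entry changes for a property which contains the
OR of more than `T` disjoint copies of `HasPoly` gives a monotone circuit for one copy. -/
theorem transfer {V I : Type} [Fintype V] [Fintype I] {s T w m q : ℕ} (C : Net V s)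
    (P : (V → Bool) → Prop) (hC : C.Decides P) (hT : C.EntryChangesLE T)
    (hI : T < Fintype.card I) (z0 : V → Prop) (φ : I → Fin m × Fin q → V)
    (hφ : ∀ b b' i i', φ b i = φ b' i' → b = b' ∧ i = i')
    (hz : ∀ b i, ¬ z0 (φ b i)) (hm : 1 ≤ m) (hq : 1 ≤ q)
    (hf : ∀ x : I → Fin m × Fin q → Prop,
      P (fun j => decide (fillIn z0 φ x j)) ↔ ∃ b, HasPoly w m q (x b)) :
    ∃ C' : Circuit (m * q) (s + 3), C'.IsMonotone ∧
      C'.Computes (Pool.Agent.Lib_MP_22d2c8_rsf.block w m q) := by
  set e := Fintype.equivFin V with he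
  set eI := Fintype.equivFin I with heI
  refine Pool.Agent.Lib_MP_22d2c8_gen.transferB (C.toCircuit e)
    (fun x => decide (P (fun j => x (e j)))) ?_ T (Net.changes_toCircuit C e T hT) hI
    (bgr e z0) (plc e eI φ) (plc_disj e eI φ hφ) (bgr_plc e eI z0 φ hz)
    (Pool.Agent.Lib_MP_22d2c8_rsf.block w m q)
    (Pool.Agent.Lib_MP_22d2c8_rsf.block_zero hm hq) ?_
  · intro x
    obtain ⟨a, ha, hout⟩ := hC (fun j => x (e j))
    refine ⟨fun v => a ((Net.ren s e).symm v), ?_, ?_⟩
    · have := Net.isRun_toCircuit C e _ a ha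
      simpa using this
    · show a ((Net.ren s e).symm (Net.ren s e C.out)) = _
      rw [Equiv.symm_apply_apply]
      cases h : a C.out with
      | true => exact (decide_eq_true (hout.mp h)).symm
      | false =>
        refine (decide_eq_false fun hP => ?_).symm
        have := hout.mpr hP
        rw [h] at this
        exact absurd this (by simp)
  · intro x
    rw [decide_eq_true_eq]
    exact prop_cfg e eI P z0 φ hf x

namespace Net

/-- The circuit accepts the input `x`. -/
def Accepts {V : Type} {s : ℕ} (C : Net V s) (x : V → Bool) : Prop :=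
  ∃ a : V ⊕ Fin s → Bool, C.IsRun x a ∧ a C.out = true

theorem accepts_toCircuit {V : Type} {s n : ℕ} (C : Net V s) (e : V ≃ Fin n)
    (x : Fin n → Bool) :
    Pool.Agent.Lib_MP_22d2c8_rsf.Accepts (C.toCircuit e) x ↔ C.Accepts (fun j => x (e j)) := by
  constructor
  · rintro ⟨a, ha, hout⟩
    exact ⟨_, isRun_of_toCircuit C e x a ha, hout⟩
  · rintro ⟨a, ha, hout⟩
    refine ⟨fun v => a ((ren s e).symm v), ?_, ?_⟩
    · have := isRun_toCircuit C e _ a ha
      simpa using this
    · show a ((ren s e).symm (ren s e C.out)) = true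
      rw [Equiv.symm_apply_apply]
      exact hout

end Net

end Pool.Agent.Lib_MP_22d2c8_clq
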